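import Mathlib
import Pool.Agent.H21.SV

set_option autoImplicit false
open Matrix Kronecker

namespace Pool.Agent.Results.MP_03f9bf_an.Counter

open Pool.Agent.H21.SV

/-- the `i`-th singular value (decreasing order, zero-indexed) -/
noncomputable def sv {n : ℕ} (M : Matrix (Fin n) (Fin n) ℂ) (i : ℕ) : ℝ :=
  (toEuclideanLin M).singularValues i

/-- Ky Fan `k`-norm -/
noncomputable def kyFan {n : ℕ} (k : ℕ) (M : Matrix (Fin n) (Fin n) ℂ) : ℝ :=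
  ∑ i ∈ Finset.range k, sv M i

/-- partial trace over the first tensor factor -/
def tr1 {n : ℕ} (X : Matrix (Fin n × Fin n) (Fin n × Fin n) ℂ) : Matrix (Fin n) (Fin n) ℂ :=
  fun j l => ∑ i, X (i, j) (i, l)

def SA {n : ℕ} (A : Matrix (Fin n) (Fin n) ℂ) : Matrix (Fin n × Fin n) (Fin n × Fin n) ℂ :=
  A ⊗ₖ (1 : Matrix (Fin n) (Fin n) ℂ) + (1 : Matrix (Fin n) (Fin n) ℂ) ⊗ₖ A

def DB {n : ℕ} (B : Matrix (Fin n) (Fin n) ℂ) : Matrix (Fin n × Fin n) (Fin n × Fin n) ℂ :=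
  B ⊗ₖ (1 : Matrix (Fin n) (Fin n) ℂ) - (1 : Matrix (Fin n) (Fin n) ℂ) ⊗ₖ B

lemma tr1_kron {n : ℕ} (X Y : Matrix (Fin n) (Fin n) ℂ) : tr1 (X ⊗ₖ Y) = X.trace • Y := by
  ext j l
  simp [tr1, Matrix.trace, Finset.sum_mul]

lemma tr1_add {n : ℕ} (X Y : Matrix (Fin n × Fin n) (Fin n × Fin n) ℂ) :
    tr1 (X + Y) = tr1 X + tr1 Y := by
  ext j l
  simp [tr1, Finset.sum_add_distrib]

lemma tr1_sub {n : ℕ} (X Y : Matrix (Fin n × Fin n) (Fin n × Fin n) ℂ) :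
    tr1 (X - Y) = tr1 X - tr1 Y := by
  ext j l
  simp [tr1, Finset.sum_sub_distrib]

lemma L_eq {n : ℕ} (A B : Matrix (Fin n) (Fin n) ℂ) :
    tr1 (SA A * DB B) = (A * B).trace • (1 : Matrix (Fin n) (Fin n) ℂ) - A.trace • B
      + (B.trace • A - (n : ℂ) • (A * B)) := by
  simp only [SA, DB, add_mul, mul_sub, ← Matrix.mul_kronecker_mul, tr1_add, tr1_sub, tr1_kron,
    mul_one, one_mul, Matrix.trace_one, Fintype.card_fin]
  abel

lemma R_eq {n : ℕ} (B : Matrix (Fin n) (Fin n) ℂ) :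
    tr1 (DB B) = B.trace • (1 : Matrix (Fin n) (Fin n) ℂ) - (n : ℂ) • B := by
  simp only [DB, tr1_sub, tr1_kron, Matrix.trace_one, Fintype.card_fin]

def Aq : Matrix (Fin 17) (Fin 17) ℚ := fun i j => if i = j then (if i = 0 then 1 else -1) else 0

def Bq : Matrix (Fin 17) (Fin 17) ℚ := fun i j =>
  if i = 0 ∧ j = 0 then 4 else if i = 0 ∧ j = 1 then 2 else if i = 1 ∧ j = 0 then 2 else
  if i = 1 ∧ j = 1 then 1 else if i = 2 ∧ j = 2 then -5 else 0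

def Uq : Matrix (Fin 17) (Fin 17) ℚ := fun i j =>
  if i = 0 ∧ j = 0 then 3/5 else if i = 0 ∧ j = 1 then 4/5 else if i = 1 ∧ j = 0 then -4/5 else
  if i = 1 ∧ j = 1 then 3/5 else if i = 2 ∧ j = 2 then -1 else if i = j then 1 else 0

def Lq : Matrix (Fin 17) (Fin 17) ℚ :=
  (Aq * Bq).trace • (1 : Matrix (Fin 17) (Fin 17) ℚ) - Aq.trace • Bq
      + (Bq.trace • Aq - (17 : ℚ) • (Aq * Bq))

def Rq : Matrix (Fin 17) (Fin 17) ℚ :=
  Bq.trace • (1 : Matrix (Fin 17) (Fin 17) ℚ) - (17 : ℚ) • Bq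

lemma q1 : Aqᵀ = Aq := by decide +kernel
lemma q2 : Bqᵀ = Bq := by decide +kernel
lemma q3 : Uqᵀ * Uq = 1 := by decide +kernel
lemma q4 : (Uq * Lq).trace = 1712 / 5 := by decide +kernel
lemma q5 : Aqᵀ * Aq = 1 := by decide +kernel
lemma q6 : Rqᵀ * Rq = (85 ^ 2 / 25 : ℚ) • (Bq * Bq) := by decide +kernel
lemma q7 : (Bq * Bq) * Bq = (25 : ℚ) • Bq := by decide +kernel
lemma q8 : (Bq * Bq).trace = 50 := by decide +kernel

noncomputable def cm (M : Matrix (Fin 17) (Fin 17) ℚ) : Matrix (Fin 17) (Fin 17) ℂ :=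
  (Rat.castHom ℂ).mapMatrix M

lemma cm_mul (M N : Matrix (Fin 17) (Fin 17) ℚ) : cm (M * N) = cm M * cm N := map_mul _ _ _
lemma cm_add (M N : Matrix (Fin 17) (Fin 17) ℚ) : cm (M + N) = cm M + cm N := map_add _ _ _
lemma cm_sub (M N : Matrix (Fin 17) (Fin 17) ℚ) : cm (M - N) = cm M - cm N := map_sub _ _ _
lemma cm_one : cm 1 = 1 := map_one _
lemma cm_smul (c : ℚ) (M : Matrix (Fin 17) (Fin 17) ℚ) : cm (c • M) = (c : ℂ) • cm M := by
  ext i j; simp [cm]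
lemma cm_trace (M : Matrix (Fin 17) (Fin 17) ℚ) : (cm M).trace = (M.trace : ℂ) := by
  simp [cm, Matrix.trace]
lemma cm_ct (M : Matrix (Fin 17) (Fin 17) ℚ) : (cm M)ᴴ = cm Mᵀ := by
  ext i j; simp [cm]

theorem result :
    ¬ ∀ n : ℕ, 1 ≤ n → ∀ A B : Matrix (Fin n) (Fin n) ℂ, A.IsHermitian → B.IsHermitian →
      ∀ k : ℕ, 1 ≤ k → k ≤ n →
        kyFan k (tr1 (SA A * DB B)) ≤ 2 * sv A 0 * kyFan k (tr1 (DB B)) := by
  intro h
  have hA : (cm Aq).IsHermitian := by rw [Matrix.IsHermitian, cm_ct, q1]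
  have hB : (cm Bq).IsHermitian := by rw [Matrix.IsHermitian, cm_ct, q2]
  have h1 := h 17 (by norm_num) _ _ hA hB 17 (by norm_num) le_rfl
  have eL : tr1 (SA (cm Aq) * DB (cm Bq)) = cm Lq := by
    rw [L_eq, Lq]
    simp only [cm_add, cm_sub, cm_smul, cm_one, ← cm_mul, cm_trace]
    norm_num
  have eR : tr1 (DB (cm Bq)) = cm Rq := by
    rw [R_eq, Rq]
    simp only [cm_sub, cm_smul, cm_one, cm_trace]
    norm_num
  rw [eL, eR] at h1
  have hL := mat_re_trace_le (cm Lq) (cm Uq) (by rw [cm_ct, ← cm_mul, q3, cm_one])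
  rw [← cm_mul, cm_trace, q4] at hL
  have hA1 := (mat_sum_sv_of_sq (cm Aq) 1 one_pos (by rw [cm_ct, ← cm_mul, q5, cm_one]; simp)).1 0
  have hR := (mat_sum_sv_of_sq (cm Rq) 85 (by norm_num) (by
    rw [cm_ct, ← cm_mul, ← cm_mul, q6, smul_mul_smul_comm, ← mul_assoc, q7, smul_mul_assoc,
      smul_smul, cm_smul, cm_smul, smul_smul]
    congr 1
    norm_num)).2
  rw [cm_ct, ← cm_mul, cm_trace, q6, Matrix.trace_smul, q8] at hR
  have hR' : kyFan 17 (cm Rq) = 170 := by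
    unfold kyFan sv
    norm_num at hR ⊢
    linarith
  have hL' : (1712 / 5 : ℝ) ≤ kyFan 17 (cm Lq) := by
    unfold kyFan sv
    norm_num at hL ⊢
    linarith
  rw [hR'] at h1
  unfold sv at h1
  linarith

end Pool.Agent.Results.MP_03f9bf_an.Counter
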